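import Mathlib
import Pool.Agent.V11134.VR.Sym

/-!
# MP_8317ba_co: vertical rotations of one-column grid classes are fine

`[n]` is modelled by `Fin n` (letters and positions are `0`-based, descents are `1`-based), the
variables of the power series are indexed by `ℕ`.

Sketch of the proof (helper files `Pool.Agent.V11134.VR.*`). Membership of `σ` in `{C_n G^v_n}`
depends only on the cyclic descent word of `σ⁻¹`, up to rotation, hence only on the descent set
`dd σ ⊆ [n-2]` of `σ⁻¹` read cyclically from the value following the last letter of `σ`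
(`Rot.lean`). An explicit bijection of words shows that, for each `J ⊆ [n-2]` and each `K`, as many
`σ` with `Des σ ⊆ K` have `dd σ ⊆ J` as have `Des(σ⁻¹) ∩ [n-2] ⊆ J` (`Words.lean`). Finally unions
of inverse descent classes are symmetric and Schur-positive, by RSK for natural matrices, proved
with local growth rules (`RSKG.lean`, `PermMat.lean`, `Shape.lean`, `Pos.lean`, `Sym.lean`).
-/

namespace Pool.Agent.Results.MP_8317ba_co.VerticalRotations

open Finset

/-- Descent set (1-based): `j ∈ des π` iff `1 ≤ j ≤ n - 1` and `π(j) > π(j+1)`, where the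
`j`-th letter of `π` is `π ⟨j - 1, _⟩`. -/
def des {n : ℕ} (π : Equiv.Perm (Fin n)) : Finset ℕ :=
  (Icc 1 (n - 1)).filter (fun j => ∃ (h : j < n) (_ : 1 ≤ j), π ⟨j, h⟩ < π ⟨j - 1, by omega⟩)

/-- Gessel's fundamental quasisymmetric function `F_{n,D}`: the coefficient of `x^e` is the number
of weakly increasing sequences `i_1 ≤ … ≤ i_n` with `i_j < i_{j+1}` for `j ∈ D` and
`x_{i_1} ⋯ x_{i_n} = x^e`. -/
noncomputable def fundF (n : ℕ) (D : Finset ℕ) : MvPowerSeries ℕ ℤ :=
  fun e => (Nat.card {i : Fin n → ℕ // Monotone i ∧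
    (∀ j ∈ D, ∀ (h : j < n) (_ : 1 ≤ j), i ⟨j - 1, by omega⟩ < i ⟨j, h⟩) ∧
    ∑ k, Finsupp.single (i k) 1 = e} : ℤ)

/-- `Q(S)`, the quasisymmetric generating function of the descent sets. -/
noncomputable def Q {n : ℕ} (S : Finset (Equiv.Perm (Fin n))) : MvPowerSeries ℕ ℤ :=
  ∑ π ∈ S, fundF n (des π)

/-- Invariance under all permutations of the variables. -/
def IsSymmetric (f : MvPowerSeries ℕ ℤ) : Prop :=
  ∀ (τ : Equiv.Perm ℕ) (e : ℕ →₀ ℕ),
    MvPowerSeries.coeff (e.mapDomain τ) f = MvPowerSeries.coeff e f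

/-- The Schur function `s_μ`: the generating function of semistandard tableaux of shape `μ`. -/
noncomputable def schur (μ : YoungDiagram) : MvPowerSeries ℕ ℤ :=
  fun e => (Nat.card {T : SemistandardYoungTableau μ //
    ∑ c ∈ μ.cells, Finsupp.single (T c.1 c.2) 1 = e} : ℤ)

/-- `f` is a combination of Schur functions `s_μ`, `|μ| = n`, with nonnegative coefficients. -/
def SchurPositive (n : ℕ) (f : MvPowerSeries ℕ ℤ) : Prop :=
  ∃ a : YoungDiagram →₀ ℕ, (∀ μ ∈ a.support, μ.card = n) ∧
    f = ∑ μ ∈ a.support, (a μ : ℤ) • schur μ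

open Classical in
/-- A set of permutations of `[n]` is fine when its quasisymmetric generating function is symmetric
and Schur-positive. -/
def Fine {n : ℕ} (A : Set (Equiv.Perm (Fin n))) : Prop :=
  IsSymmetric (Q (univ.filter (fun π => π ∈ A))) ∧
    SchurPositive n (Q (univ.filter (fun π => π ∈ A)))

/-- The one-column grid class `G^v_n`, `v ∈ {+,-}^k` (`true` is `+`): `b` assigns to each value the
number of its strip; the values of strip `i` occur in `π` in increasing order if `v i = +` and in
decreasing order if `v i = -`. -/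
def gridClass {k : ℕ} (v : Fin k → Bool) (n : ℕ) : Set (Equiv.Perm (Fin n)) :=
  {π | ∃ b : Fin n → Fin k, Monotone b ∧ ∀ x y : Fin n, x < y → b x = b y →
    if v (b x) = true then π.symm x < π.symm y else π.symm y < π.symm x}

/-- The set `{C_n A}` of all vertical rotations `c^j π`, `π ∈ A`, where `c = (1,2,…,n)`. -/
def rotations {n : ℕ} (A : Set (Equiv.Perm (Fin n))) : Set (Equiv.Perm (Fin n)) :=
  {σ | ∃ j : ℕ, ∃ π ∈ A, σ = finRotate n ^ j * π}

/-- For all `k`, `v ∈ {+,-}^k` and `n`, the set `{C_n G^v_n}` is fine. -/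
theorem result (k : ℕ) (v : Fin k → Bool) (n : ℕ) : Fine (rotations (gridClass v n)) :=
  V11134.VR.main v n

end Pool.Agent.Results.MP_8317ba_co.VerticalRotations
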